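import Pool.Agent.Helper70.EQ.Goals

/-!
# Packet EQ-LB (MP_20ee5e_ag): the lower bound of the geometric genus
-/

open MeasureTheory Set

namespace Pool.Agent.Helper14.EQ.LB

open Pool.Agent.Helper70.KN Pool.Agent.Helper70.EQ

theorem step {N : ℕ} (V : Finset (Fin N → ℕ)) (hV : Convenient V) (hMD : G_MD) (hSP : G_SP) (i : Fin N)
    (A : Finset (Fin N)) (hA : i ∉ A) : W V ∅ ≤ dv V A + ∑ a ∈ A, W V {a} / 2 := by
  induction A using Finset.induction_on with
  | empty =>
    have h := (hMD N V hV ∅).2.2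
    rw [Finset.sum_empty, h]
    linarith
  | insert a A ha ih =>
    have hai : a ≠ i := by
      intro h
      exact hA (by rw [h]; exact Finset.mem_insert_self _ _)
    have hiA : i ∉ A := fun h => hA (Finset.mem_insert_of_mem h)
    have h1 := ih hiA
    have h2 := hSP N V hV i a A hai ha hiA
    rw [Finset.sum_insert ha]
    linarith

theorem one {N : ℕ} (V : Finset (Fin N → ℕ)) (hV : Convenient V) (hMD : G_MD) (hSP : G_SP) (hLA : G_LA)
    (hCO : G_CO) (i : Fin N) : W V ∅ ≤ genus V + (∑ a, W V {a}) / 2 + W V {i} / 2 := by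
  have h1 := step V hV hMD hSP i (Finset.univ.erase i) (by simp)
  have h2 := hLA N V hV i
  have h3 := hCO N V hV
  have h4 : ∑ a ∈ Finset.univ.erase i, W V {a} / 2 = (∑ a, W V {a}) / 2 - W V {i} / 2 := by
    have h := Finset.add_sum_erase Finset.univ (fun a => W V {a} / 2) (Finset.mem_univ i)
    rw [Finset.sum_div]
    linarith
  rw [h4] at h1
  linarith

theorem X_zero {N : ℕ} (V : Finset (Fin N → ℕ)) : X V 0 = W V ∅ := by
  unfold X
  simp

theorem X_one {N : ℕ} (V : Finset (Fin N → ℕ)) : X V 1 = ∑ a, W V {a} := by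
  unfold X
  rw [Finset.powersetCard_one, Finset.sum_map]
  rfl

theorem t (hMD : G_MD) (hSP : G_SP) (hLA : G_LA) (hCO : G_CO) : G_LB := by
  intro N hN V hV
  have h1 : ∑ i : Fin N, W V ∅ ≤ ∑ i : Fin N, ((genus V : ℝ) + (∑ a, W V {a}) / 2 + W V {i} / 2) :=
    Finset.sum_le_sum fun i _ => one V hV hMD hSP hLA hCO i
  rw [Finset.sum_add_distrib, ← Finset.sum_div] at h1
  simp only [Finset.sum_const, Finset.card_univ, Fintype.card_fin, nsmul_eq_mul] at h1
  rw [← X_one, ← X_zero] at h1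
  obtain ⟨n, rfl⟩ : ∃ n, N = n + 1 := ⟨N - 1, by omega⟩
  unfold T
  have h2 : (0 : ℝ) ≤ (n.factorial : ℝ) := by positivity
  have h3 := mul_le_mul_of_nonneg_left h1 h2
  simp only [Nat.sub_zero, Nat.add_sub_cancel, Nat.factorial_succ]
  push_cast at h3 ⊢
  linarith
  
end Pool.Agent.Helper14.EQ.LB
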