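import Pool.Agent.Helper98.EQ.Goals
import Mathlib

/-!
# Project EQ (MP_5b9a11_al), packet PHI: the isomorphism of `RE e` with the matrix algebra
-/

set_option autoImplicit false
set_option linter.unusedSectionVars false

namespace Pool.Agent.Helper14.EQ.PHI

open MonoidAlgebra Pool.Agent.Helper98.EQ
open Pool.Agent.Helper47.EP (Dat Chr Hs Om ee ev pHB Om_neg_right Om_self)

variable {p : ℕ} {T : Dat p} {A : Type} [Fintype A] [DecidableEq A] {R : Type} [CommRing R]

/-- the matrix of `v` -/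
def W (S : T.K → Matrix (ZMod T.l) (ZMod T.l) R) (v : A → T.K) :
    Matrix (A → ZMod T.l) (A → ZMod T.l) R :=
  tn fun a => S (v a)

section

variable (C : Chr T R) (S : T.K → Matrix (ZMod T.l) (ZMod T.l) R) (hTEN : S_TEN)

include hTEN

theorem W_mul (hmul : ∀ k k', S k * S k' = C.ψ (T.w k k') • S (k + k')) (v v' : A → T.K) :
    W S v * W S v' = C.ψ (Om v v') • W S (v + v') := by
  obtain ⟨T1, -, T3, -⟩ := hTEN A (ZMod T.l) R
  unfold W
  rw [T1]
  have h : (fun a => S (v a) * S (v' a)) = fun a => C.ψ (T.w (v a) (v' a)) • S ((v + v') a) := by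
    funext a
    exact hmul _ _
  rw [h, T3]
  congr 1
  unfold Om
  have key : ∀ s : Finset A, ∏ a ∈ s, C.ψ (T.w (v a) (v' a)) = C.ψ (∑ a ∈ s, T.w (v a) (v' a)) := by
    intro s
    induction s using Finset.induction_on with
    | empty => rw [Finset.prod_empty, Finset.sum_empty, AddChar.map_zero_eq_one]
    | insert a s ha ih =>
      rw [Finset.prod_insert ha, Finset.sum_insert ha, AddChar.map_add_eq_mul, ih]
  exact key _

theorem W_zero (hone : S 0 = 1) : W S (0 : A → T.K) = 1 := by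
  obtain ⟨-, T2, -⟩ := hTEN A (ZMod T.l) R
  unfold W
  rw [← T2]
  congr 1
  funext a
  exact hone

theorem W_trace (htr : ∀ k, (S k).trace = if k = 0 then (T.l : R) else 0) (v : A → T.K) :
    (W S v).trace = if v = 0 then (T.l : R) ^ Fintype.card A else 0 := by
  obtain ⟨-, -, -, T4, -⟩ := hTEN A (ZMod T.l) R
  unfold W
  rw [T4]
  split_ifs with h
  · subst h
    rw [Finset.prod_congr rfl fun a _ => by
      rw [htr, Pi.zero_apply, if_pos rfl]]
    rw [Finset.prod_const, Finset.card_univ]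
  · have : ∃ a, v a ≠ 0 := by
      by_contra h'
      push Not at h'
      exact h (funext h')
    obtain ⟨a, ha⟩ := this
    refine Finset.prod_eq_zero (Finset.mem_univ a) ?_
    rw [htr, if_neg ha]

theorem W_pair (hmul : ∀ k k', S k * S k' = C.ψ (T.w k k') • S (k + k'))
    (htr : ∀ k, (S k).trace = if k = 0 then (T.l : R) else 0) (v w : A → T.K) :
    (W S v * W S (-w)).trace = if v = w then (T.l : R) ^ Fintype.card A else 0 := by
  rw [W_mul C S hTEN hmul, Matrix.trace_smul, W_trace S hTEN htr]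
  by_cases h : v = w
  · subst h
    rw [if_pos (add_neg_cancel v), if_pos rfl, Om_neg_right, Om_self, neg_zero,
      AddChar.map_zero_eq_one, one_smul]
  · rw [if_neg h, if_neg, smul_zero]
    intro h'
    exact h (add_neg_eq_zero.1 h')

theorem W_coeff (hmul : ∀ k k', S k * S k' = C.ψ (T.w k k') • S (k + k'))
    (htr : ∀ k, (S k).trace = if k = 0 then (T.l : R) else 0) (c : (A → T.K) → R)
    (w : A → T.K) :
    ((∑ v, c v • W S v) * W S (-w)).trace = c w * (T.l : R) ^ Fintype.card A := by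
  rw [Finset.sum_mul, Matrix.trace_sum]
  rw [Finset.sum_eq_single w]
  · rw [smul_mul_assoc, Matrix.trace_smul, W_pair C S hTEN hmul htr, if_pos rfl, smul_eq_mul]
  · intro v _ hv
    rw [smul_mul_assoc, Matrix.trace_smul, W_pair C S hTEN hmul htr, if_neg hv, smul_zero]
  · intro h
    exact absurd (Finset.mem_univ _) h

theorem W_surj (hmul : ∀ k k', S k * S k' = C.ψ (T.w k k') • S (k + k'))
    (htr : ∀ k, (S k).trace = if k = 0 then (T.l : R) else 0)
    (m : Matrix (A → ZMod T.l) (A → ZMod T.l) R) :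
    ∃ c : (A → T.K) → R, ∑ v, c v • W S v = m := by
  have hil : C.il ^ Fintype.card A * (T.l : R) ^ Fintype.card A = 1 := by
    rw [← mul_pow, C.il_mul, one_pow]
  let B : Matrix ((A → ZMod T.l) × (A → ZMod T.l)) (A → T.K) R := fun q v => W S v q.1 q.2
  let G : Matrix (A → T.K) ((A → ZMod T.l) × (A → ZMod T.l)) R :=
    fun w q => C.il ^ Fintype.card A * W S (-w) q.2 q.1
  have hGB : G * B = 1 := by
    ext w v
    have h := W_pair C S hTEN hmul htr v w
    rw [Matrix.mul_apply, Fintype.sum_prod_type]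
    have h2 : ∑ x, ∑ y, G w (x, y) * B (x, y) v =
        C.il ^ Fintype.card A * (W S v * W S (-w)).trace := by
      rw [Matrix.trace, Finset.mul_sum]
      refine Finset.sum_congr rfl fun x _ => ?_
      rw [Matrix.diag_apply, Matrix.mul_apply, Finset.mul_sum]
      refine Finset.sum_congr rfl fun y _ => ?_
      show C.il ^ Fintype.card A * W S (-w) y x * W S v x y = _
      ring
    rw [h2, h, Matrix.one_apply]
    by_cases hvw : v = w
    · rw [if_pos hvw, if_pos hvw.symm, hil]
    · rw [if_neg hvw, if_neg fun h => hvw h.symm, mul_zero]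
  have hcard : Fintype.card ((A → ZMod T.l) × (A → ZMod T.l)) = Fintype.card (A → T.K) := by
    rw [Fintype.card_prod, Fintype.card_fun, Fintype.card_fun, ZMod.card, T.card, ← pow_mul,
      ← pow_add]
    congr 1
    ring
  have hBG : B * G = 1 := (Matrix.mul_eq_one_comm_of_equiv (Fintype.equivOfCardEq hcard)).2 hGB
  refine ⟨G.mulVec fun q => m q.1 q.2, ?_⟩
  have h3 : B.mulVec (G.mulVec fun q => m q.1 q.2) = fun q => m q.1 q.2 := by
    rw [Matrix.mulVec_mulVec, hBG, Matrix.one_mulVec]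
  ext x y
  have h4 := congrFun h3 (x, y)
  rw [Matrix.sum_apply]
  refine Eq.trans ?_ h4
  refine Finset.sum_congr rfl fun v _ => ?_
  rw [Matrix.smul_apply, smul_eq_mul, mul_comm]

/-- the homomorphism of the Heisenberg group -/
theorem exists_hom (hmul : ∀ k k', S k * S k' = C.ψ (T.w k k') • S (k + k')) (hone : S 0 = 1) :
    ∃ F : Hs T A →* Matrix (A → ZMod T.l) (A → ZMod T.l) R, ∀ g, F g = C.ψ g.z • W S g.v := by
  refine ⟨⟨⟨fun g => C.ψ g.z • W S g.v, ?_⟩, ?_⟩, fun g => rfl⟩
  · show C.ψ 0 • W S (0 : A → T.K) = 1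
    rw [AddChar.map_zero_eq_one, one_smul, W_zero S hTEN hone]
  · intro g h
    show C.ψ (g.z + h.z + Om g.v h.v) • W S (g.v + h.v) = C.ψ g.z • W S g.v * C.ψ h.z • W S h.v
    rw [smul_mul_smul_comm, W_mul C S hTEN hmul, smul_smul, AddChar.map_add_eq_mul,
      AddChar.map_add_eq_mul]

end

theorem t (hTEN : S_TEN) : S_PHI := by
  intro p _ T A _ _ R _ C S hmul hone htr
  obtain ⟨B1, B2, -, -, -, B6, -⟩ := pHB p T A R C
  obtain ⟨F, hF⟩ := exists_hom (A := A) C S hTEN hmul hone
  have hl : C.il * (T.l : R) = 1 := C.il_mul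
  have hil : (T.l : R) ^ Fintype.card A * C.il ^ Fintype.card A = 1 := by
    rw [mul_comm, ← mul_pow, C.il_mul, one_pow]
  have hs : ∀ (g : Hs T A) (c : R), MonoidAlgebra.lift R (Matrix (A → ZMod T.l) (A → ZMod T.l) R)
      (Hs T A) F (single g c) = c • (C.ψ g.z • W S g.v) := by
    intro g c
    rw [MonoidAlgebra.lift_single, hF]
  have hee : MonoidAlgebra.lift R (Matrix (A → ZMod T.l) (A → ZMod T.l) R) (Hs T A) F
      (ee C A) = 1 := by
    unfold ee
    rw [map_smul, map_sum]
    have h1 : ∀ z : ZMod T.l, MonoidAlgebra.lift R (Matrix (A → ZMod T.l) (A → ZMod T.l) R)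
        (Hs T A) F (single (⟨0, z⟩ : Hs T A) (C.ψ (-z))) = 1 := by
      intro z
      rw [hs]
      show C.ψ (-z) • (C.ψ z • W S (0 : A → T.K)) = 1
      rw [smul_smul, ← AddChar.map_add_eq_mul, neg_add_cancel, AddChar.map_zero_eq_one, one_smul,
        W_zero S hTEN hone]
    rw [Finset.sum_congr rfl fun z _ => h1 z, Finset.sum_const, Finset.card_univ, ZMod.card,
      ← Nat.cast_smul_eq_nsmul R, smul_smul, hl, one_smul]
  have hev : ∀ v : A → T.K, MonoidAlgebra.lift R (Matrix (A → ZMod T.l) (A → ZMod T.l) R)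
      (Hs T A) F (ev C v) = W S v := by
    intro v
    unfold ev
    rw [map_mul, hee, mul_one, hs]
    show (1 : R) • (C.ψ 0 • W S v) = W S v
    rw [one_smul, AddChar.map_zero_eq_one, one_smul]
  have heev : ∀ v : A → T.K, ee C A * ev C v = ev C v := by
    intro v
    unfold ev
    rw [← mul_assoc, B2, mul_assoc, B1]
  have hy : ∀ y : MonoidAlgebra R (Hs T A), ee C A * y = y →
      MonoidAlgebra.lift R (Matrix (A → ZMod T.l) (A → ZMod T.l) R) (Hs T A) F y =
        ∑ v : A → T.K, ((T.l : R) * y.coeff ⟨v, 0⟩) • W S v := by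
    intro y hy
    conv_lhs => rw [B6 y hy]
    rw [map_sum]
    refine Finset.sum_congr rfl fun v _ => ?_
    rw [map_smul, hev]
  refine ⟨MonoidAlgebra.lift R (Matrix (A → ZMod T.l) (A → ZMod T.l) R) (Hs T A) F, ?_, hee, ?_,
    ?_, ?_⟩
  · intro g
    rw [hs, one_smul]
    rfl
  · intro m
    obtain ⟨c, hc⟩ := W_surj C S hTEN hmul htr m
    refine ⟨∑ v, c v • ev C v, ?_, ?_⟩
    · rw [Finset.mul_sum]
      refine Finset.sum_congr rfl fun v _ => ?_
      rw [mul_smul_comm, heev]
    · rw [map_sum, ← hc]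
      refine Finset.sum_congr rfl fun v _ => ?_
      rw [map_smul, hev]
  · intro y hy1 hy0
    have h := hy y hy1
    rw [hy0] at h
    have hc : ∀ w : A → T.K, (T.l : R) * y.coeff ⟨w, 0⟩ = 0 := by
      intro w
      have h2 := W_coeff C S hTEN hmul htr (fun v => (T.l : R) * y.coeff ⟨v, 0⟩) w
      rw [← h, zero_mul, Matrix.trace_zero] at h2
      calc (T.l : R) * y.coeff ⟨w, 0⟩
          = (T.l : R) * y.coeff ⟨w, 0⟩ * (T.l : R) ^ Fintype.card A * C.il ^ Fintype.card A := by
            rw [mul_assoc, hil, mul_one]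
        _ = 0 := by rw [← h2, zero_mul]
    rw [B6 y hy1]
    refine Finset.sum_eq_zero fun v _ => ?_
    rw [hc, zero_smul]
  · intro y hy1
    rw [hy y hy1, Matrix.trace_sum, Finset.sum_eq_single (0 : A → T.K)]
    · rw [Matrix.trace_smul, W_trace S hTEN htr, if_pos rfl, smul_eq_mul]
      show (T.l : R) * y.coeff (1 : Hs T A) * (T.l : R) ^ Fintype.card A = _
      ring
    · intro v _ hv
      rw [Matrix.trace_smul, W_trace S hTEN htr, if_neg hv, smul_zero]
    · intro h
      exact absurd (Finset.mem_univ _) h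

end Pool.Agent.Helper14.EQ.PHI
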